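import Pool.Agent.W96.CL.Stm

set_option autoImplicit false

open Polynomial Filter Topology

namespace W96CL

namespace BASEaux

theorem om_sq : om ^ 2 = -1 - om := by
  have h3 : (Real.sqrt 3) * (Real.sqrt 3) = 3 := Real.mul_self_sqrt (by norm_num)
  apply Complex.ext
  · simp only [om, pow_two, Complex.mul_re, Complex.sub_re, Complex.neg_re, Complex.one_re]
    linear_combination (-1 / 4) * h3
  · simp only [om, pow_two, Complex.mul_im, Complex.sub_im, Complex.neg_im, Complex.one_im]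
    ring

noncomputable def T (n : ℕ) : ℝ[X] := C (-2) * (1 - X) ^ 2 * (1 + X + X ^ 2) ^ (2 * n - 1)

noncomputable def Q (n : ℕ) : ℝ[X] := (X + 1) * (X - 1) ^ (2 * n - 1)

theorem phi_eq (n : ℕ) : phi n (Real.pi / 3) = (1 + X + X ^ 2) ^ (2 * n) := by
  unfold phi
  rw [Real.cos_pi_div_three]
  norm_num

theorem aeval_phi (n : ℕ) (y : ℂ) : aeval y (phi n (Real.pi / 3)) = (1 + y + y ^ 2) ^ (2 * n) := by
  rw [phi_eq]
  simp

theorem aeval_T (n : ℕ) (y : ℂ) :
    aeval y (T n) = -2 * (1 - y) ^ 2 * (1 + y + y ^ 2) ^ (2 * n - 1) := by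
  unfold T
  simp

theorem aeval_Q (n : ℕ) (y : ℂ) :
    aeval y (Q n) = (y + 1) * (y - 1) ^ (2 * n - 1) := by
  unfold Q
  simp

theorem e0 (x : ℂ) : 1 + x + x ^ 2 = (1 - om * x) * (1 - om ^ 2 * x) := by
  linear_combination (x - om * x ^ 2 + x ^ 2) * om_sq

theorem e1 (x : ℂ) : 1 + om * x + (om * x) ^ 2 = (1 - x) * (1 - om ^ 2 * x) := by
  linear_combination x * om_sq

theorem e2 (x : ℂ) : 1 + om ^ 2 * x + (om ^ 2 * x) ^ 2 = (1 - x) * (1 - om * x) := by
  linear_combination (x + x ^ 2 * (om ^ 2 - om)) * om_sq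

theorem e3 (x : ℂ) : (1 - x) ^ 3 + (1 - om * x) ^ 3 + (1 - om ^ 2 * x) ^ 3 =
    3 * ((1 - x) * (1 - om * x) * (1 - om ^ 2 * x)) := by
  have h := om_sq
  have h3 : om ^ 3 = 1 := by linear_combination (om - 1) * h
  have h6 : om ^ 6 = 1 := by linear_combination (om ^ 3 + 1) * h3
  have h4 : om ^ 4 = om := by linear_combination om * h3
  linear_combination (-x ^ 3) * h6 + (3 * x ^ 2) * h4 + 2 * x ^ 3 * h3 - 3 * x ^ 2 * h3

theorem refl1 : reflect 2 ((1 - X : ℝ[X]) ^ 2) = (1 - X) ^ 2 := by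
  ext k
  rw [coeff_reflect]
  have e : ((1 - X : ℝ[X]) ^ 2) = C 1 - C 2 * X + X ^ 2 := by
    rw [C_1]; simp only [map_ofNat]; ring
  rw [e]
  rcases le_or_gt k 2 with h | h
  · rw [revAt_le h]
    interval_cases k <;> simp [coeff_X, coeff_one, coeff_X_pow]
  · rw [revAt_eq_self_of_lt h]

theorem refl2 : reflect 2 ((1 + X + X ^ 2 : ℝ[X])) = 1 + X + X ^ 2 := by
  ext k
  rw [coeff_reflect]
  rcases le_or_gt k 2 with h | h
  · rw [revAt_le h]
    interval_cases k <;> simp [coeff_X, coeff_one, coeff_X_pow]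
  · rw [revAt_eq_self_of_lt h]

theorem deg1 : ((1 - X : ℝ[X]) ^ 2).natDegree ≤ 2 := by compute_degree
theorem deg2 : ((1 + X + X ^ 2 : ℝ[X])).natDegree ≤ 2 := by compute_degree

theorem deg3 (k : ℕ) : ((1 + X + X ^ 2 : ℝ[X]) ^ k).natDegree ≤ 2 * k := by
  refine natDegree_pow_le.trans ?_
  rw [mul_comm]
  exact Nat.mul_le_mul_right k deg2

theorem refl3 (k : ℕ) : reflect (2 * k) ((1 + X + X ^ 2 : ℝ[X]) ^ k) = (1 + X + X ^ 2) ^ k := by
  induction k with
  | zero => simp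
  | succ k ih =>
    rw [pow_succ, show 2 * (k + 1) = 2 * k + 2 by ring, reflect_mul _ _ (deg3 k) deg2, ih, refl2]

theorem rel (n : ℕ) (hn : 1 ≤ n) : Rel n (Real.pi / 3) (T n) := by
  obtain ⟨m, hm⟩ : ∃ m, 2 * n - 1 = m := ⟨_, rfl⟩
  have hm2 : 2 * n = m + 1 := by omega
  refine ⟨?_, ?_, ?_, ⟨C 3 * Q n ^ 2, ?_⟩, ?_⟩
  · unfold T
    refine (natDegree_mul_le.trans (add_le_add (natDegree_C_mul_le _ _) (deg3 _))).trans ?_
    have := deg1
    omega
  · intro k hk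
    have h : reflect (4 * n) (T n) = T n := by
      unfold T
      rw [mul_assoc, reflect_C_mul, show 4 * n = 2 + 2 * (2 * n - 1) by omega,
        reflect_mul _ _ deg1 (deg3 _), refl1, refl3]
    conv_lhs => rw [← h]
    rw [coeff_reflect, revAt_le hk]
  · unfold T
    rw [coeff_zero_eq_eval_zero]
    simp
  · intro x
    simp only [aeval_T, aeval_phi, map_mul, map_pow, aeval_Q, aeval_C]
    rw [hm, hm2, e1, e2, e0 x]
    have hq : ((x - 1) ^ m) ^ 2 = ((1 - x) ^ m) ^ 2 := by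
      rw [← pow_mul, ← pow_mul, mul_comm m 2, pow_mul, pow_mul]; congr 1; ring
    simp only [mul_pow, pow_succ, pow_zero, one_mul] at hq ⊢
    have h := e0 x
    have hc : (algebraMap ℝ ℂ) 3 = 3 := by simp
    rw [hc]
    linear_combination
      (-(3 * ((1 - om * x) ^ m * (1 - om * x) * ((1 - om ^ 2 * x) ^ m * (1 - om ^ 2 * x))) *
        ((x + 1) * (x + 1)))) * hq + ((1 - x) ^ m * (1 - om ^ 2 * x) ^ m *
        ((1 - x) ^ m * (1 - om * x) ^ m)) * (-4 * (1 - om * x) * (1 - om ^ 2 * x)) * h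
  · intro x
    simp only [aeval_T, aeval_phi]
    rw [hm, hm2, e1, e2, e0 x]
    simp only [mul_pow, pow_succ, pow_zero, one_mul]
    have h := e3 x
    linear_combination (2 * ((1 - x) ^ m * (1 - om * x) ^ m * (1 - om ^ 2 * x) ^ m) ^ 2 *
      ((1 - x) * (1 - om * x) * (1 - om ^ 2 * x))) * h

theorem Qmonic (n : ℕ) : (Q n).Monic := by
  unfold Q
  have h1 : (X + 1 : ℝ[X]).Monic := by simpa using monic_X_add_C (1 : ℝ)
  have h2 : (X - 1 : ℝ[X]).Monic := by simpa using monic_X_sub_C (1 : ℝ)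
  exact h1.mul (h2.pow _)

theorem Qdeg (n : ℕ) (hn : 1 ≤ n) : (Q n).natDegree = 2 * n := by
  unfold Q
  have h1 : (X + 1 : ℝ[X]).Monic := by simpa using monic_X_add_C (1 : ℝ)
  have h2 : (X - 1 : ℝ[X]).Monic := by simpa using monic_X_sub_C (1 : ℝ)
  have d1 : (X + 1 : ℝ[X]).natDegree = 1 := by simpa using natDegree_X_add_C (1 : ℝ)
  have d2 : (X - 1 : ℝ[X]).natDegree = 1 := by simpa using natDegree_X_sub_C (1 : ℝ)
  rw [h1.natDegree_mul (h2.pow _), h2.natDegree_pow, d1, d2]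
  omega

theorem Qzero (n : ℕ) (hn : 1 ≤ n) : (Q n).coeff 0 = -1 := by
  unfold Q
  rw [coeff_zero_eq_eval_zero]
  obtain ⟨k, rfl⟩ : ∃ k, n = k + 1 := ⟨n - 1, by omega⟩
  rw [show 2 * (k + 1) - 1 = 2 * k + 1 by omega]
  simp [pow_succ, pow_mul]

theorem p1 (n : ℕ) (hn : 1 ≤ n) : P1 n (Real.pi / 3) (T n) (Q n) := by
  obtain ⟨m, hm⟩ : ∃ m, 2 * n - 1 = m := ⟨_, rfl⟩
  have hm2 : 2 * n = m + 1 := by omega
  refine ⟨⟨Qmonic n, Qdeg n hn, by rw [Qzero n hn]; norm_num, ?_, ?_⟩, Qzero n hn⟩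
  · intro x
    simp only [aeval_T, aeval_phi, aeval_Q]
    rw [hm, hm2]
    have h := om_sq
    have h3 : om ^ 3 = 1 := by linear_combination (om - 1) * h
    have g1 : (om * x - 1) * (om ^ 2 * x - 1) = 1 + x + x ^ 2 := by
      linear_combination (-x) * h + x ^ 2 * h3
    have g2 : (om * x + 1) * (om ^ 2 * x + 1) = 1 - x + x ^ 2 := by
      linear_combination x * h + x ^ 2 * h3
    have g3 : 3 * ((om * x + 1) * (om * x - 1) ^ m) * ((om ^ 2 * x + 1) * (om ^ 2 * x - 1) ^ m) =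
        3 * ((om * x + 1) * (om ^ 2 * x + 1)) * ((om * x - 1) * (om ^ 2 * x - 1)) ^ m := by
      rw [mul_pow]; ring
    rw [g3, g1, g2, pow_succ]
    ring
  · intro x
    have := (rel n hn).two
    simp only [aeval_T, aeval_phi, aeval_Q]
    rw [hm, hm2, e1, e2, e0 x]
    have hq : ((x - 1) ^ m) ^ 2 = ((1 - x) ^ m) ^ 2 := by
      rw [← pow_mul, ← pow_mul, mul_comm m 2, pow_mul, pow_mul]; congr 1; ring
    simp only [mul_pow, pow_succ, pow_zero, one_mul] at hq ⊢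
    have h := e0 x
    linear_combination
      (-(3 * ((1 - om * x) ^ m * (1 - om * x) * ((1 - om ^ 2 * x) ^ m * (1 - om ^ 2 * x))) *
        ((x + 1) * (x + 1)))) * hq + ((1 - x) ^ m * (1 - om ^ 2 * x) ^ m *
        ((1 - x) ^ m * (1 - om * x) ^ m)) * (-4 * (1 - om * x) * (1 - om ^ 2 * x)) * h

theorem arg_big {z : ℂ} (hz : z.re < 0) : ¬ |z.arg| ≤ Real.pi / 3 := by
  intro h
  have h2 : |z.arg| ≤ Real.pi / 2 := by linarith [Real.pi_pos]
  rw [Complex.abs_arg_le_pi_div_two_iff] at h2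
  linarith

theorem cnt2 (n : ℕ) : cnt (T n) = 2 := by
  classical
  have hmap : (T n).map (algebraMap ℝ ℂ) =
      C (-2 : ℂ) * ((X - C (1 : ℂ)) ^ 2 * ((X - C om) ^ (2 * n - 1) *
        (X - C (om ^ 2)) ^ (2 * n - 1))) := by
    have hf : (1 + X + X ^ 2 : ℂ[X]) = (X - C om) * (X - C (om ^ 2)) := by
      have h := congrArg (C : ℂ → ℂ[X]) om_sq
      have h3 : (C om : ℂ[X]) ^ 3 = 1 := by
        have : om ^ 3 = 1 := by linear_combination (om - 1) * om_sq
        rw [← C_pow, this, C_1]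
      rw [C_pow, C_sub, C_neg, C_1] at h
      rw [C_pow]
      linear_combination X * h - h3
    unfold T
    rw [Polynomial.map_mul, Polynomial.map_mul, Polynomial.map_pow, Polynomial.map_pow,
      Polynomial.map_C]
    have h1 : (1 + X + X ^ 2 : ℝ[X]).map (algebraMap ℝ ℂ) = 1 + X + X ^ 2 := by simp
    have h2 : (1 - X : ℝ[X]).map (algebraMap ℝ ℂ) = 1 - X := by simp
    rw [h1, h2, hf, mul_pow]
    have h3 : (algebraMap ℝ ℂ) (-2) = -2 := by simp
    rw [h3, C_1]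
    ring
  unfold cnt
  have hne1 : (X - C (1 : ℂ)) ^ 2 ≠ 0 := pow_ne_zero _ (X_sub_C_ne_zero _)
  have hne2 : (X - C om) ^ (2 * n - 1) ≠ 0 := pow_ne_zero _ (X_sub_C_ne_zero _)
  have hne3 : (X - C (om ^ 2)) ^ (2 * n - 1) ≠ 0 := pow_ne_zero _ (X_sub_C_ne_zero _)
  rw [hmap, roots_C_mul _ (by norm_num), roots_mul (mul_ne_zero hne1 (mul_ne_zero hne2 hne3)),
    roots_mul (mul_ne_zero hne2 hne3), roots_pow, roots_pow, roots_pow, roots_X_sub_C,
    roots_X_sub_C, roots_X_sub_C, Multiset.filter_add, Multiset.filter_add,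
    Multiset.nsmul_singleton, Multiset.nsmul_singleton, Multiset.nsmul_singleton]
  have hre : om.re < 0 := by simp only [om]; norm_num
  have hre2 : (om ^ 2).re < 0 := by
    rw [om_sq, Complex.sub_re, Complex.neg_re, Complex.one_re]
    simp only [om]; norm_num
  have k1 : (Multiset.replicate 2 (1 : ℂ)).filter (fun z => z ≠ 0 ∧ |z.arg| ≤ Real.pi / 3) =
      Multiset.replicate 2 (1 : ℂ) := by
    rw [Multiset.filter_eq_self]
    intro a ha
    rw [Multiset.eq_of_mem_replicate ha]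
    refine ⟨one_ne_zero, ?_⟩
    rw [Complex.arg_one, abs_zero]
    positivity
  have k2 : ∀ (z : ℂ) (k : ℕ), z.re < 0 → (Multiset.replicate k z).filter
      (fun z => z ≠ 0 ∧ |z.arg| ≤ Real.pi / 3) = 0 := by
    intro z k hz
    rw [Multiset.filter_eq_nil]
    intro a ha
    rw [Multiset.eq_of_mem_replicate ha]
    exact fun h => arg_big hz h.2
  rw [k1, k2 _ _ hre, k2 _ _ hre2]
  simp

end BASEaux

theorem cl_base : S_base := fun n hn => ⟨BASEaux.rel n hn, BASEaux.p1 n hn, BASEaux.cnt2 n⟩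

end W96CL
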